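import Pool.Agent.ER.Dec

/-!
# Collinearity logic with groups: definitions
-/

set_option autoImplicit false

namespace Pool.Agent.Q230.CO

/-- Three points of the plane lie on a common line. -/
def COL (p q r : ℝ × ℝ) : Prop := Collinear ℝ {p, q, r}

/-- Instances with groups, written as lists: the list of the groups (each given as a list of
variables, which are natural numbers) and the list of the negative atoms. -/
abbrev Inst : Type := List (List ℕ) × List (ℕ × ℕ × ℕ)

/-- The groups: a finite set of finite sets of variables. -/
def groups (I : Inst) : Finset (Finset ℕ) := (I.1.map List.toFinset).toFinset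

/-- Any two distinct groups share at most one variable. -/
def SharesAtMostOne (I : Inst) : Prop :=
  ∀ G ∈ groups I, ∀ H ∈ groups I, G ≠ H → (G ∩ H).card ≤ 1

/-- Every group has at most `k` variables. -/
def BoundedGroups (k : ℕ) (I : Inst) : Prop := ∀ G ∈ groups I, G.card ≤ k

/-- The positive atoms `COL(a,b,c)`, for `a`, `b`, `c` in a common group, hold under the
assignment `P` of points to the variables. -/
def PositiveAtoms (I : Inst) (P : ℕ → ℝ × ℝ) : Prop :=
  ∀ G ∈ groups I, ∀ a ∈ G, ∀ b ∈ G, ∀ c ∈ G, COL (P a) (P b) (P c)

/-- The negative atoms hold. -/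
def NegativeAtoms (I : Inst) (P : ℕ → ℝ × ℝ) : Prop :=
  ∀ t ∈ I.2, ¬ COL (P t.1) (P t.2.1) (P t.2.2)

/-- The yes-instances of collinearity logic with groups of at most `k` variables. -/
def COLk (k : ℕ) (I : Inst) : Prop :=
  SharesAtMostOne I ∧ BoundedGroups k I ∧
    ∃ P : ℕ → ℝ × ℝ, PositiveAtoms I P ∧ NegativeAtoms I P

end Pool.Agent.Q230.CO
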