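import Pool.Agent.H621R2.Lvl2
import Pool.Agent.Q230.CO.Defs

/-!
# From collinear triples to systems of equations

The theorem `gates_sound'` and its proof are adapted from `Pool.Agent.H621R2.gates_sound` (the
nondegeneracy of the base triangle is now a hypothesis).
-/

set_option autoImplicit false

namespace Pool.Agent.Q230.CO

open Pool.Agent.NPC Pool.Agent.NPC.ER Pool.Agent.H621R2

/-- the base triangle is not degenerate -/
theorem base_of_R3 {G : List Gt} {q : ℕ → Pt} (h : R3 prs (trip G) q) :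
    cr (q 0 - q 1) (q 2 - q 1) ≠ 0 := by
  obtain ⟨hinj, hT, hP⟩ := h
  have n0 : (0 : ℕ) ∈ names3 prs (trip G) := Or.inl ⟨(1, 0), by simp [prs], Or.inr rfl⟩
  have n1 : (1 : ℕ) ∈ names3 prs (trip G) := Or.inl ⟨(1, 0), by simp [prs], Or.inl rfl⟩
  have n2 : (2 : ℕ) ∈ names3 prs (trip G) := Or.inl ⟨(1, 2), by simp [prs], Or.inr rfl⟩
  have n4 : (4 : ℕ) ∈ names3 prs (trip G) :=
    Or.inr ⟨(0, 2, 4), by simp [trip], Or.inr (Or.inr rfl)⟩
  have ne : ∀ {u v : ℕ}, u ∈ names3 prs (trip G) → v ∈ names3 prs (trip G) → u ≠ v → q u ≠ q v :=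
    fun hu hv huv he => huv (hinj hu hv he)
  intro hc
  obtain ⟨s, hs⟩ := exists_param_of_col (ne n1 n0 (by decide)) hc
  rcases lt_or_ge s 0 with h0 | h0
  · refine hP (0, 2) (by simp [prs]) 1 n1 (by decide) (by decide) ?_
    simp only
    rw [segment_eq_image']
    refine ⟨1 / (1 - s), ⟨by apply div_nonneg <;> linarith, by
      rw [div_le_one (by linarith)]; linarith⟩, ?_⟩
    have : 1 - s ≠ 0 := by linarith
    rw [hs]
    ext <;> simp only [Prod.fst_sub, Prod.snd_sub, Prod.fst_add, Prod.snd_add, Prod.smul_fst,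
      Prod.smul_snd, smul_eq_mul] <;> field_simp <;> ring
  · rcases le_or_gt s 1 with h1 | h1
    · refine hP (1, 0) (by simp [prs]) 2 n2 (by decide) (by decide) ?_
      simp only
      rw [segment_eq_image']
      exact ⟨s, ⟨h0, h1⟩, hs.symm⟩
    · refine hP (1, 2) (by simp [prs]) 0 n0 (by decide) (by decide) ?_
      simp only
      rw [segment_eq_image']
      refine ⟨1 / s, ⟨by apply div_nonneg <;> linarith, by
        rw [div_le_one (by linarith)]; linarith⟩, ?_⟩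
      have : s ≠ 0 := by linarith
      rw [hs]
      ext <;> simp only [Prod.fst_sub, Prod.snd_sub, Prod.fst_add, Prod.snd_add, Prod.smul_fst,
        Prod.smul_snd, smul_eq_mul] <;> field_simp <;> ring

theorem gates_sound' {G : List Gt} {q : ℕ → Pt} (hinj : Set.InjOn q (names3 prs (trip G)))
    (hT : ∀ u ∈ trip G, Col (q u.1) (q u.2.1) (q u.2.2))
    (hD : cr (q 0 - q 1) (q 2 - q 1) ≠ 0) :
    ∃ (fin : ℕ → Prop) (val : ℕ → ℝ), fin 0 ∧ val 0 = 0 ∧ fin 2 ∧ val 2 = 1 ∧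
      ∀ g ∈ G, SoundGate fin val g := by
  have n0 : (0 : ℕ) ∈ names3 prs (trip G) := Or.inl ⟨(1, 0), by simp [prs], Or.inr rfl⟩
  have n1 : (1 : ℕ) ∈ names3 prs (trip G) := Or.inl ⟨(1, 0), by simp [prs], Or.inl rfl⟩
  have n2 : (2 : ℕ) ∈ names3 prs (trip G) := Or.inl ⟨(1, 2), by simp [prs], Or.inr rfl⟩
  have n4 : (4 : ℕ) ∈ names3 prs (trip G) :=
    Or.inr ⟨(0, 2, 4), by simp [trip], Or.inr (Or.inr rfl)⟩
  have ne : ∀ {u v : ℕ}, u ∈ names3 prs (trip G) → v ∈ names3 prs (trip G) → u ≠ v → q u ≠ q v :=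
    fun hu hv huv he => huv (hinj hu hv he)
  obtain ⟨t, ht⟩ := exists_param_of_col (ne n0 n2 (by decide)) (hT (0, 2, 4) (by simp [trip]))
  simp only at ht
  have ht0 : t ≠ 0 := by
    rintro rfl
    apply ne n4 n0 (by decide)
    rw [ht]; simp
  have ht1 : t ≠ 1 := by
    rintro rfl
    apply ne n4 n2 (by decide)
    rw [ht]; simp
  have ht1' : 1 - t ≠ 0 := fun h => ht1 (by linarith)
  obtain ⟨e1, he1⟩ : ∃ e1, e1 = q 0 - q 1 := ⟨_, rfl⟩
  obtain ⟨e2, he2⟩ : ∃ e2, e2 = (t / (1 - t)) • (q 2 - q 1) := ⟨_, rfl⟩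
  have hDe : cr e1 e2 ≠ 0 := by
    rw [he1, he2]
    have : cr (q 0 - q 1) ((t / (1 - t)) • (q 2 - q 1)) =
        (t / (1 - t)) * cr (q 0 - q 1) (q 2 - q 1) := by
      simp only [cr, Prod.smul_fst, Prod.smul_snd, smul_eq_mul]; ring
    rw [this]
    exact mul_ne_zero (div_ne_zero ht0 ht1') hD
  choose x y hxy using fun P : Pt => exists_coord (A := q 1) hDe P
  -- uniqueness of coordinates
  have huniq : ∀ a b a' b' : ℝ, q 1 + a • e1 + b • e2 = q 1 + a' • e1 + b' • e2 → a = a' ∧ b = b' := by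
    intro a b a' b' hab
    have h1 : cr (q 1 + a • e1 + b • e2 - q 1) e2 = cr (q 1 + a' • e1 + b' • e2 - q 1) e2 := by
      rw [hab]
    have h2 : cr e1 (q 1 + a • e1 + b • e2 - q 1) = cr e1 (q 1 + a' • e1 + b' • e2 - q 1) := by
      rw [hab]
    have h1' : a * cr e1 e2 = a' * cr e1 e2 := by
      simp only [cr, Prod.fst_sub, Prod.snd_sub, Prod.fst_add, Prod.snd_add, Prod.smul_fst,
        Prod.smul_snd, smul_eq_mul] at h1 ⊢
      linarith
    have h2' : b * cr e1 e2 = b' * cr e1 e2 := by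
      simp only [cr, Prod.fst_sub, Prod.snd_sub, Prod.fst_add, Prod.snd_add, Prod.smul_fst,
        Prod.smul_snd, smul_eq_mul] at h2 ⊢
      linarith
    exact ⟨mul_right_cancel₀ hDe h1', mul_right_cancel₀ hDe h2'⟩
  have hcoord : ∀ {P : Pt} {a b : ℝ}, P = q 1 + a • e1 + b • e2 → x P = a ∧ y P = b := by
    intro P a b hPab
    have := hxy P
    exact huniq _ _ _ _ (this.symm.trans hPab)
  have hne : ∀ {u v : ℕ}, u ∈ names3 prs (trip G) → v ∈ names3 prs (trip G) → u ≠ v →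
      ¬ (x (q u) = x (q v) ∧ y (q u) = y (q v)) := by
    rintro u v hu hv huv ⟨ha, hb⟩
    apply ne hu hv huv
    rw [hxy (q u), hxy (q v), ha, hb]
  have hcol : ∀ u v w : ℕ, (u, v, w) ∈ trip G →
      Col2 (x (q u)) (y (q u)) (x (q v)) (y (q v)) (x (q w)) (y (q w)) := by
    intro u v w huvw
    have := hT _ huvw
    simp only at this
    rw [hxy (q u), hxy (q v), hxy (q w), col_coord hDe] at this
    exact this
  obtain ⟨x1, y1⟩ := hcoord (P := q 1) (a := 0) (b := 0) (by simp)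
  obtain ⟨x0, y0⟩ := hcoord (P := q 0) (a := 1) (b := 0) (by rw [he1]; simp)
  obtain ⟨x2, y2⟩ := hcoord (P := q 2) (a := 0) (b := (1 - t) / t) (by
    rw [he2, smul_smul]
    have : (1 - t) / t * (t / (1 - t)) = 1 := by field_simp
    rw [this]; simp)
  obtain ⟨x4, y4⟩ := hcoord (P := q 4) (a := 1 - t) (b := 1 - t) (by
    rw [he2, he1, smul_smul, ht]
    have : (1 - t) * (t / (1 - t)) = t := by field_simp
    rw [this]
    ext <;> simp only [Prod.fst_sub, Prod.snd_sub, Prod.fst_add, Prod.snd_add, Prod.smul_fst,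
          Prod.smul_snd, smul_eq_mul] <;> ring)
  have hnz : ∀ {v : ℕ}, v ∈ names3 prs (trip G) → v ≠ 1 → ¬ (x (q v) = 0 ∧ y (q v) = 0) := by
    intro v hv hv1 h0
    exact hne hv n1 hv1 ⟨h0.1.trans x1.symm, h0.2.trans y1.symm⟩
  have hO : ∀ v w : ℕ, (1, v, w) ∈ trip G → x (q v) * y (q w) - y (q v) * x (q w) = 0 := by
    intro v w hvw
    have := hcol 1 v w hvw
    simp only [Col2, x1, y1] at this
    linarith
  have hax : ∀ w : ℕ, (1, 2, w) ∈ trip G → x (q w) = 0 := by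
    intro w hw
    have := hO 2 w hw
    rw [x2, y2] at this
    have h3 : (1 - t) / t * x (q w) = 0 := by linarith
    exact (mul_eq_zero.1 h3).resolve_left (div_ne_zero ht1' ht0)
  refine ⟨fun n => x (q (2 * n)) ≠ 0, fun n => y (q (2 * n)) / x (q (2 * n)), ?_, ?_, ?_, ?_, ?_⟩
  · simp [x0]
  · simp [y0]
  · simp [x4, ht1']
  · simp [x4, y4, ht1']
  · intro g hg
    obtain ⟨k, hk⟩ := mem_zipIdx_of_mem hg 0
    have hmem : ∀ u ∈ gateT g k, u ∈ trip G := by
      intro u hu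
      refine List.mem_cons_of_mem _ ?_
      rw [List.mem_flatMap]
      exact ⟨(g, k), hk, hu⟩
    obtain ⟨e, a, b, c, d⟩ := g
    have t0 : (1, 2, pn k 0) ∈ trip G := hmem _ (by simp [gateT])
    have tc : (1, 2 * c, pn k 1) ∈ trip G := hmem _ (by simp [gateT])
    have ta : (1, 2 * a, pn k 2) ∈ trip G := hmem _ (by simp [gateT])
    have t3 : (1, 2, pn k 3) ∈ trip G := hmem _ (by simp [gateT])
    have tb : (1, 2 * b, pn k 4) ∈ trip G := hmem _ (by simp [gateT])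
    have td : (1, 2 * d, pn k 5) ∈ trip G := hmem _ (by simp [gateT])
    have h1 : (pn k 1, pn k 2, pn k 0) ∈ trip G := hmem _ (by simp [gateT])
    have h2 : (pn k 1, pn k 4, pn k 3) ∈ trip G := hmem _ (by simp [gateT])
    have h3 : (pn k 2, pn k 5, pn k 3) ∈ trip G := hmem _ (by simp [gateT])
    have nm3 : ∀ {u v w : ℕ}, (u, v, w) ∈ trip G → w ∈ names3 prs (trip G) :=
      fun hu => Or.inr ⟨_, hu, Or.inr (Or.inr rfl)⟩
    have nm2 : ∀ {u v w : ℕ}, (u, v, w) ∈ trip G → v ∈ names3 prs (trip G) :=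
      fun hu => Or.inr ⟨_, hu, Or.inr (Or.inl rfl)⟩
    have pne : ∀ {i j : ℕ}, i ≠ j → pn k i ≠ pn k j := by
      intro i j hij; simp only [pn]; omega
    have p1 : ∀ i, pn k i ≠ 1 := by intro i; simp only [pn]; omega
    have z0 : x (q (pn k 0)) = 0 := hax _ t0
    have z3 : x (q (pn k 3)) = 0 := hax _ t3
    have w0 : y (q (pn k 0)) ≠ 0 := fun h0 => hnz (nm3 t0) (p1 0) ⟨z0, h0⟩
    have w3 : y (q (pn k 3)) ≠ 0 := fun h0 => hnz (nm3 t3) (p1 3) ⟨z3, h0⟩
    have w03 : y (q (pn k 0)) ≠ y (q (pn k 3)) := fun h0 =>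
      hne (nm3 t0) (nm3 t3) (pne (by decide)) ⟨z0.trans z3.symm, h0⟩
    have c1 := hcol _ _ _ h1
    have c2 := hcol _ _ _ h2
    have c3 := hcol _ _ _ h3
    rw [z0] at c1
    rw [z3] at c2 c3
    -- transfer from node to point
    have tr : ∀ {n i : ℕ}, (1, 2 * n, pn k i) ∈ trip G → x (q (2 * n)) ≠ 0 →
        x (q (pn k i)) ≠ 0 ∧ y (q (2 * n)) / x (q (2 * n)) = y (q (pn k i)) / x (q (pn k i)) := by
      intro n i hni hx
      exact ray (hO _ _ hni) (hnz (nm2 hni) (by omega)) (hnz (nm3 hni) (p1 i)) hx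
    have tr' : ∀ {n i : ℕ}, (1, 2 * n, pn k i) ∈ trip G → x (q (pn k i)) ≠ 0 →
        x (q (2 * n)) ≠ 0 ∧ y (q (2 * n)) / x (q (2 * n)) = y (q (pn k i)) / x (q (pn k i)) := by
      intro n i hni hx
      have h4 := hO _ _ hni
      have := ray (xm := x (q (pn k i))) (ym := y (q (pn k i))) (xP := x (q (2 * n)))
        (yP := y (q (2 * n))) (by linarith) (hnz (nm3 hni) (p1 i)) (hnz (nm2 hni) (by omega)) hx
      exact ⟨this.1, this.2.symm⟩
    constructor
    · intro he hc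
      simp only at he hc
      have h4 : (pn k 4, pn k 5, pn k 0) ∈ trip G := hmem _ (by simp [gateT, he])
      have c4 := hcol _ _ _ h4
      rw [z0] at c4
      obtain ⟨kc, vc⟩ := tr tc hc
      have nn : ∀ {i j : ℕ}, pn k i ∈ names3 prs (trip G) → pn k j ∈ names3 prs (trip G) → i ≠ j →
          x (q (pn k j)) = 0 → ¬ (x (q (pn k i)) = 0 ∧ y (q (pn k i)) = y (q (pn k j))) := by
        rintro i j hi hj hij hz ⟨h5, h6⟩
        exact hne hi hj (pne hij) ⟨h5.trans hz.symm, h6⟩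
      obtain ⟨ka, kb, kd, rel⟩ := S_sound w03 kc c1 c2 c3 c4
        (nn (nm3 ta) (nm3 t0) (by decide) z0) (nn (nm3 tb) (nm3 t3) (by decide) z3)
        (nn (nm3 td) (nm3 t3) (by decide) z3)
      obtain ⟨ma, va⟩ := tr' ta ka
      obtain ⟨mb, vb⟩ := tr' tb kb
      obtain ⟨md, vd⟩ := tr' td kd
      refine ⟨ma, mb, md, ?_⟩
      simp only
      rw [va, vb, vc, vd]
      exact rel
    · intro he fe fa fb fc fd
      simp only at he fe fa fb fc fd
      have te : (1, 2 * e, pn k 6) ∈ trip G := hmem _ (by simp [gateT, he])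
      have h4 : (pn k 1, pn k 6, pn k 0) ∈ trip G := hmem _ (by simp [gateT, he])
      have h5 : (pn k 6, pn k 4, pn k 5) ∈ trip G := hmem _ (by simp [gateT, he])
      have c4 := hcol _ _ _ h4
      have c5 := hcol _ _ _ h5
      rw [z0] at c4
      obtain ⟨ka, va⟩ := tr ta fa
      obtain ⟨kb, vb⟩ := tr tb fb
      obtain ⟨kc, vc⟩ := tr tc fc
      obtain ⟨kd, vd⟩ := tr td fd
      obtain ⟨ke, ve⟩ := tr te fe
      simp only
      rw [va, vb, vc, vd, ve]
      exact G_sound w0 w3 w03 kc ka kb kd ke c1 c2 c3 c4 c5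


end Pool.Agent.Q230.CO
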