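import Pool.Agent.Q230.CO.Sound
import Pool.Agent.H621R2.Lin
import Pool.Agent.H612.CollectPoly
import Pool.Agent.H670R2.ERMem

/-!
# Collinearity logic with groups of size three
-/

set_option autoImplicit false

namespace Pool.Agent.Q230.CO

open Pool.Agent.NPC Pool.Agent.NPC.ER Pool.Agent.H621R2

theorem COL_iff (p q r : ℝ × ℝ) : COL p q r ↔ Col p q r := by
  unfold COL
  rw [collinear_iff_of_mem (p₀ := p) (by simp)]
  constructor
  · rintro ⟨v, hv⟩
    obtain ⟨b, hb⟩ := hv q (by simp)
    obtain ⟨c, hc⟩ := hv r (by simp)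
    rw [hb, hc]
    simp only [Col, cr, vadd_eq_add, Prod.fst_sub, Prod.snd_sub, Prod.fst_add, Prod.snd_add,
      Prod.smul_fst, Prod.smul_snd, smul_eq_mul]
    ring
  · intro h
    by_cases hpq : p = q
    · subst hpq
      refine ⟨r - p, ?_⟩
      rintro x (rfl | rfl | rfl)
      · exact ⟨0, by simp⟩
      · exact ⟨0, by simp⟩
      · exact ⟨1, by simp⟩
    · obtain ⟨s, hs⟩ := exists_param_of_col hpq h
      refine ⟨q - p, ?_⟩
      rintro x (rfl | rfl | rfl)
      · exact ⟨0, by simp⟩
      · exact ⟨1, by simp⟩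
      · exact ⟨s, by rw [hs, vadd_eq_add, add_comm]⟩

/-! ### The reduction -/

/-- the triples -/
def grp (S : List Con) : List (List ℕ) := gads (trip (gatesOf S)) 0

/-- the names of the points -/
def nms (S : List Con) : List ℕ := [2, 0, 4] ++ (grp S).flatten

/-- the name of the extra point -/
def ext (S : List Con) : ℕ := (nms S).sum + 1

/-- the instance of a system -/
def inst (S : List Con) : Inst :=
  (grp S, (2, 0, 4) :: (nms S).flatMap fun u =>
    ((nms S).filter fun v => !decide (v = u)).map fun v => (u, v, ext S))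

theorem nms_lt_ext {S : List Con} {v : ℕ} (h : v ∈ nms S) : v < ext S := by
  have := List.single_le_sum (l := nms S) (by simp) v h
  unfold ext
  omega

attribute [local irreducible] ext

theorem grp_sub_hyp {S : List Con} {e : List ℕ} (h : e ∈ grp S) :
    e ∈ hyp prs (trip (gatesOf S)) := List.mem_append_right _ h

theorem nms_sub_vs {S : List Con} {v : ℕ} (h : v ∈ nms S) :
    v ∈ vs (hyp prs (trip (gatesOf S))) := by
  rw [nms, List.mem_append] at h
  rcases h with h | h
  · simp only [List.mem_cons, List.not_mem_nil, or_false] at h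
    rcases h with rfl | rfl | rfl
    · exact mem_vs (e := [2, 0]) (List.mem_append_left _ (by simp [prs])) (by simp)
    · exact mem_vs (e := [2, 0]) (List.mem_append_left _ (by simp [prs])) (by simp)
    · exact mem_vs (e := [2, 4]) (List.mem_append_left _ (by simp [prs])) (by simp)
  · rw [List.mem_flatten] at h
    obtain ⟨e, he, hv⟩ := h
    exact mem_vs (grp_sub_hyp he) hv

theorem mem_groups {I : Inst} {G : Finset ℕ} : G ∈ groups I ↔ ∃ l ∈ I.1, l.toFinset = G := by
  simp [groups]

theorem inst_linear (S : List Con) : SharesAtMostOne (inst S) := by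
  intro G hG H hH hne
  obtain ⟨l, hl, rfl⟩ := mem_groups.1 hG
  obtain ⟨m, hm, rfl⟩ := mem_groups.1 hH
  exact hyp_lin (fun u hu => trip_distinct hu) (grp_sub_hyp hl) (grp_sub_hyp hm) hne

theorem inst_bounded (S : List Con) : BoundedGroups 3 (inst S) := by
  intro G hG
  obtain ⟨l, hl, rfl⟩ := mem_groups.1 hG
  exact (hyp_card (P := prs) (by decide) (fun u hu => trip_distinct hu) (grp_sub_hyp hl)).2

theorem exists_off (N : Finset ℕ) (p : ℕ → Pt) (hN : ∀ u ∈ N, ∀ v ∈ N, u ≠ v → p u ≠ p v) :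
    ∃ P : Pt, ∀ u ∈ N, ∀ v ∈ N, u ≠ v → ¬ Col (p u) (p v) P := by
  have h : ∀ᶠ t : ℝ in Filter.cofinite, ∀ u ∈ N, ∀ v ∈ N, u ≠ v →
      cr ((t, t ^ 2) - p u) (p v - p u) ≠ 0 := by
    rw [Filter.eventually_all_finset]
    intro u hu
    rw [Filter.eventually_all_finset]
    intro v hv
    by_cases huv : u = v
    · exact Filter.Eventually.of_forall (fun t h => absurd huv h)
    · filter_upwards [cr_gen (p u) (p v - p u) (sub_ne_zero.2 (hN u hu v hv huv).symm)] with t ht _
      exact ht
  obtain ⟨t, ht⟩ := h.exists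
  refine ⟨(t, t ^ 2), fun u hu v hv huv hc => ht u hu v hv huv ?_⟩
  simp only [Col, cr] at hc ⊢
  linarith

theorem complete {S : List Con} (hS : Sat S) : ∃ P : ℕ → ℝ × ℝ, PositiveAtoms (inst S) P ∧
    NegativeAtoms (inst S) P := by
  classical
  obtain ⟨p, hp⟩ := (edgesOf_correct S).1 hS
  unfold edgesOf at hp
  have hR := hyp_sound hp
  have hbase := base_of_R3 hR
  have hinj : ∀ u ∈ nms S, ∀ v ∈ nms S, u ≠ v → p u ≠ p v := fun u hu v hv huv he =>
    huv (hp.1 (nms_sub_vs hu) (nms_sub_vs hv) he)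
  obtain ⟨Q, hQ⟩ := exists_off (nms S).toFinset p (by
    intro u hu v hv
    rw [List.mem_toFinset] at hu hv
    exact hinj u hu v hv)
  have hP : ∀ v ∈ nms S, Function.update p (ext S) Q v = p v := fun v hv =>
    Function.update_of_ne (nms_lt_ext hv).ne _ _
  refine ⟨Function.update p (ext S) Q, ?_, ?_⟩
  · intro G hG a ha b hb c hc
    obtain ⟨l, hl, rfl⟩ := mem_groups.1 hG
    rw [List.mem_toFinset] at ha hb hc
    have hn : ∀ v ∈ l, v ∈ nms S := fun v hv =>
      List.mem_append_right _ (List.mem_flatten.2 ⟨l, hl, hv⟩)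
    rw [hP _ (hn _ ha), hP _ (hn _ hb), hP _ (hn _ hc), COL_iff]
    obtain ⟨x, y, hxy⟩ := hp.2 l (grp_sub_hyp hl)
    exact col_of_mem_segment ((hxy a (nms_sub_vs (hn _ ha))).2 ha)
      ((hxy b (nms_sub_vs (hn _ hb))).2 hb) ((hxy c (nms_sub_vs (hn _ hc))).2 hc)
  · intro t ht
    simp only [inst, List.mem_cons, List.mem_flatMap, List.mem_map, List.mem_filter,
      Bool.not_eq_true', decide_eq_false_iff_not] at ht
    rcases ht with rfl | ⟨u, hu, v, ⟨hv, hvu⟩, rfl⟩
    · simp only
      have m2 : (2 : ℕ) ∈ nms S := List.mem_append_left _ (by simp)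
      have m0 : (0 : ℕ) ∈ nms S := List.mem_append_left _ (by simp)
      have m4 : (4 : ℕ) ∈ nms S := List.mem_append_left _ (by simp)
      rw [hP 2 m2, hP 0 m0, hP 4 m4, COL_iff]
      exact hbase
    · simp only
      have hx : Function.update p (ext S) Q (ext S) = Q := Function.update_self (ext S) Q p
      rw [hP u hu, hP v hv, hx, COL_iff]
      exact hQ u (List.mem_toFinset.2 hu) v (List.mem_toFinset.2 hv) (fun h => hvu h.symm)

theorem sound {S : List Con} {P : ℕ → ℝ × ℝ} (hpos : PositiveAtoms (inst S) P)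
    (hneg : NegativeAtoms (inst S) P) : Sat S := by
  have hne : ∀ u ∈ nms S, ∀ v ∈ nms S, u ≠ v → P u ≠ P v := by
    intro u hu v hv huv he
    have h := hneg (u, v, ext S) (by
      simp only [inst, List.mem_cons, List.mem_flatMap, List.mem_map, List.mem_filter,
        Bool.not_eq_true', decide_eq_false_iff_not]
      exact Or.inr ⟨u, hu, v, ⟨hv, fun h => huv h.symm⟩, rfl⟩)
    apply h
    simp only
    rw [COL_iff, he]
    simp [Col, cr]
  have hcol : ∀ {a b c : ℕ}, [a, b, c] ∈ grp S → Col (P a) (P b) (P c) := by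
    intro a b c h
    rw [← COL_iff]
    exact hpos _ (mem_groups.2 ⟨_, h, rfl⟩) _ (by simp) _ (by simp) _ (by simp)
  have hgad : ∀ u ∈ trip (gatesOf S), ∃ j,
      ∀ e ∈ gad (2 * u.1) (2 * u.2.1) (2 * u.2.2) (fr j), e ∈ grp S := by
    intro u hu
    obtain ⟨j, hj⟩ := mem_zipIdx_of_mem hu 0
    exact ⟨j, fun e he => mem_gads_iff.2 ⟨_, hj, he⟩⟩
  have hmem : ∀ {e : List ℕ} {v : ℕ}, e ∈ grp S → v ∈ e → v ∈ nms S := fun he hv =>
    List.mem_append_right _ (List.mem_flatten.2 ⟨_, he, hv⟩)
  have hn : ∀ v ∈ names3 prs (trip (gatesOf S)), 2 * v ∈ nms S := by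
    intro v hv
    rcases hv with ⟨u, hu, hv⟩ | ⟨u, hu, hv⟩
    · simp only [prs, List.mem_cons, List.not_mem_nil, or_false] at hu
      rcases hu with rfl | rfl | rfl <;> rcases hv with rfl | rfl <;> simp [nms]
    · obtain ⟨j, hj⟩ := hgad u hu
      rcases hv with rfl | rfl | rfl
      · exact hmem (hj [fr j 0, fr j 4, 2 * u.1] (by simp [gad])) (by simp)
      · exact hmem (hj [fr j 0, fr j 5, 2 * u.2.1] (by simp [gad])) (by simp)
      · exact hmem (hj [fr j 1, fr j 5, 2 * u.2.2] (by simp [gad])) (by simp)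
  obtain ⟨fin, val, f0, v0, f2, v2, h⟩ := gates_sound' (G := gatesOf S)
    (q := fun v => P (2 * v)) (by
      intro v hv w hw hvw
      by_contra hne'
      exact hne _ (hn v hv) _ (hn w hw) (by omega) hvw) (by
      intro u hu
      obtain ⟨j, hj⟩ := hgad u hu
      have hν : ∀ i, fr j i ∈ nms S := by
        intro i
        have : ∃ e ∈ gad (2 * u.1) (2 * u.2.1) (2 * u.2.2) (fr j), fr j i ∈ e := by
          fin_cases i
          · exact ⟨[fr j 0, fr j 1, fr j 2], by simp [gad], by simp⟩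
          · exact ⟨[fr j 0, fr j 1, fr j 2], by simp [gad], by simp⟩
          · exact ⟨[fr j 0, fr j 1, fr j 2], by simp [gad], by simp⟩
          · exact ⟨[fr j 3, fr j 4, fr j 5], by simp [gad], by simp⟩
          · exact ⟨[fr j 3, fr j 4, fr j 5], by simp [gad], by simp⟩
          · exact ⟨[fr j 3, fr j 4, fr j 5], by simp [gad], by simp⟩
        obtain ⟨e, he, hi⟩ := this
        exact hmem (hj e he) hi
      have nν : ∀ i k : Fin 6, i ≠ k → P (fr j i) ≠ P (fr j k) := fun i k hik =>
        hne _ (hν i) _ (hν k) fun h => hik (fr_inj h).2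
      have hx : 2 * u.1 ∈ nms S := hn _ (Or.inr ⟨u, hu, Or.inl rfl⟩)
      exact pappus (A := P (fr j 0)) (B := P (fr j 1)) (C := P (fr j 2)) (a := P (fr j 3))
        (b := P (fr j 4)) (c := P (fr j 5)) (X := P (2 * u.1)) (Y := P (2 * u.2.1))
        (Z := P (2 * u.2.2)) (hcol (hj _ (by simp [gad]))) (hcol (hj _ (by simp [gad])))
        (hcol (hj _ (by simp [gad]))) (hcol (hj _ (by simp [gad])))
        (hcol (hj _ (by simp [gad]))) (hcol (hj _ (by simp [gad])))
        (hcol (hj _ (by simp [gad]))) (hcol (hj _ (by simp [gad])))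
        (nν _ _ (by decide)) (nν _ _ (by decide)) (nν _ _ (by decide)) (nν _ _ (by decide))
        (nν _ _ (by decide)) (nν _ _ (by decide)) (nν _ _ (by decide)) (nν _ _ (by decide))
        (nν _ _ (by decide)) (nν _ _ (by decide)) (nν _ _ (by decide)) (nν _ _ (by decide))
        (hne _ hx _ (hν 0) (fr_ne_even _ _ _).symm) (hne _ hx _ (hν 1) (fr_ne_even _ _ _).symm))
    (by
      intro h0
      have := hneg (2, 0, 4) (by simp [inst])
      apply this
      rw [COL_iff]
      exact h0)
  exact gatesOf_sound f0 v0 f2 v2 h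

theorem correct {k : ℕ} (hk : 3 ≤ k) (S : List Con) : Sat S ↔ COLk k (inst S) := by
  constructor
  · intro h
    exact ⟨inst_linear S, fun G hG => (inst_bounded S G hG).trans hk, complete h⟩
  · rintro ⟨-, -, P, h1, h2⟩
    exact sound h1 h2

section poly

variable {α : Type} [TEnc α]

theorem poly_grp {S : α → List Con} (hS : Poly S) : Poly (fun a => grp (S a)) := by
  unfold grp gads
  refine Poly.flatMap (F := fun (_ : α) (q : (ℕ × ℕ × ℕ) × ℕ) =>
    gad (2 * q.1.1) (2 * q.1.2.1) (2 * q.1.2.2) (fr q.2)) (Poly.zipIdx (poly_trip (poly_gatesOf hS)))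
    ?_
  have h : Poly (fun p : α × (ℕ × ℕ × ℕ) × ℕ => p.2) := Poly.snd Poly.id
  exact poly_gad (Poly.mul (NPC.Poly.const 2) h.fst.fst) (Poly.mul (NPC.Poly.const 2) h.fst.snd.fst)
    (Poly.mul (NPC.Poly.const 2) h.fst.snd.snd) h.snd

theorem poly_nms {S : α → List Con} (hS : Poly S) : Poly (fun a => nms (S a)) :=
  Poly.append (NPC.Poly.const _) (Poly.flatten (poly_grp hS))

theorem poly_ext {S : α → List Con} (hS : Poly S) : Poly (fun a => ext (S a)) := by
  unfold ext
  exact Poly.add (Poly.sum (poly_nms hS)) (NPC.Poly.const 1)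

theorem poly_inst : Poly inst := by
  have hS : Poly (fun S : List Con => S) := Poly.id
  have hn := poly_nms hS
  have he := poly_ext hS
  refine Poly.pair (poly_grp hS) (Poly.cons (NPC.Poly.const _) ?_)
  refine Poly.flatMap (F := fun (S : List Con) (u : ℕ) =>
    ((nms S).filter fun v => !decide (v = u)).map fun v => (u, v, ext S)) hn ?_
  refine NPC.Poly.map (F := fun (p : List Con × ℕ) (v : ℕ) => (p.2, v, ext p.1))
    (Poly.filter (p := fun (p : List Con × ℕ) (v : ℕ) => !decide (v = p.2))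
      (hn.comp (Poly.fst Poly.id)) ?_) ?_
  · exact Poly.not (Poly.decide_eq (Poly.snd Poly.id) (Poly.snd (Poly.fst Poly.id)))
  · exact Poly.pair (Poly.snd (Poly.fst Poly.id)) (Poly.pair (Poly.snd Poly.id)
      (he.comp (Poly.fst (Poly.fst Poly.id))))

end poly

theorem hard {k : ℕ} (hk : 3 ≤ k) : ERHard (lang (COLk k)) :=
  ERHard.of_sys poly_inst (correct hk)

end Pool.Agent.Q230.CO
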