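import Pool.Agent.Q230.CO.Main

/-!
# Collinearity logic with bounded groups belongs to `∃ℝ`
-/

set_option autoImplicit false

namespace Pool.Agent.Q230.CO

open Pool.Agent.NPC Pool.Agent.NPC.ER
open Pool.Agent.H621R2 (Pt Col cr)
open Pool.Agent.NPC.H670R2 (conj holds_conj poly_conj poly_tvar poly_tadd poly_tmul poly_eq poly_lt
  poly_le poly_not poly_and poly_tneg ff not_etr_ff)

/-! ### Validity -/

/-- inclusion of lists -/
def subB (l m : List ℕ) : Bool := l.all fun a => decide (a ∈ m)

/-- at most one common element -/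
def interB (l m : List ℕ) : Bool :=
  l.all fun a => l.all fun b => !(decide (a ∈ m) && decide (b ∈ m)) || decide (a = b)

/-- the test of validity -/
def validB (k : ℕ) (I : Inst) : Bool :=
  (I.1.all fun l => I.1.all fun m => (subB l m && subB m l) || interB l m) &&
    I.1.all fun l => decide (l.dedup.length ≤ k)

theorem subB_iff (l m : List ℕ) : subB l m = true ↔ l.toFinset ⊆ m.toFinset := by
  simp [subB, List.all_eq_true, Finset.subset_iff]

theorem interB_iff (l m : List ℕ) :
    interB l m = true ↔ (l.toFinset ∩ m.toFinset).card ≤ 1 := by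
  simp only [interB, List.all_eq_true, Bool.or_eq_true, Bool.not_eq_true', Bool.and_eq_false_iff,
    decide_eq_false_iff_not, decide_eq_true_eq, Finset.card_le_one, Finset.mem_inter,
    List.mem_toFinset]
  constructor
  · intro h a ha b hb
    rcases h a ha.1 b hb.1 with (h1 | h1) | h1
    · exact absurd ha.2 h1
    · exact absurd hb.2 h1
    · exact h1
  · intro h a ha b hb
    by_cases h1 : a ∈ m
    · by_cases h2 : b ∈ m
      · exact Or.inr (h a ⟨ha, h1⟩ b ⟨hb, h2⟩)
      · exact Or.inl (Or.inr h2)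
    · exact Or.inl (Or.inl h1)

theorem forall_groups {I : Inst} {q : Finset ℕ → Prop} :
    (∀ G ∈ groups I, q G) ↔ ∀ l ∈ I.1, q l.toFinset := by
  constructor
  · intro h l hl
    exact h _ (mem_groups.2 ⟨l, hl, rfl⟩)
  · intro h G hG
    obtain ⟨l, hl, rfl⟩ := mem_groups.1 hG
    exact h l hl

theorem validB_iff (k : ℕ) (I : Inst) :
    validB k I = true ↔ SharesAtMostOne I ∧ BoundedGroups k I := by
  unfold validB SharesAtMostOne BoundedGroups
  simp only [forall_groups, Bool.and_eq_true, List.all_eq_true, Bool.or_eq_true, subB_iff,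
    interB_iff, decide_eq_true_eq, List.card_toFinset]
  refine and_congr ?_ Iff.rfl
  constructor
  · intro h l hl m hm hne
    rcases h l hl m hm with h1 | h1
    · exact absurd (h1.1.antisymm h1.2) hne
    · exact h1
  · intro h l hl m hm
    by_cases hlm : l.toFinset = m.toFinset
    · exact Or.inl ⟨hlm.le, hlm.ge⟩
    · exact Or.inr (h l hl m hm hlm)

/-! ### The formula -/

/-- difference -/
def subT (s t : Tm) : Tm := Tm.add s (Tm.neg t)

/-- the determinant of three points -/
def detT (a b c : ℕ) : Tm :=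
  subT (Tm.mul (subT (Tm.var (2 * b)) (Tm.var (2 * a)))
      (subT (Tm.var (2 * c + 1)) (Tm.var (2 * a + 1))))
    (Tm.mul (subT (Tm.var (2 * b + 1)) (Tm.var (2 * a + 1)))
      (subT (Tm.var (2 * c)) (Tm.var (2 * a))))

/-- collinearity -/
def colF (a b c : ℕ) : Fm := Fm.eq (detT a b c) Tm.zero

theorem holds_colF (x : ℕ → ℝ) (a b c : ℕ) : (colF a b c).Holds x ↔
    COL (x (2 * a), x (2 * a + 1)) (x (2 * b), x (2 * b + 1)) (x (2 * c), x (2 * c + 1)) := by
  rw [COL_iff]
  simp only [colF, Fm.Holds, detT, subT, Tm.eval, Col, cr, Prod.fst_sub, Prod.snd_sub,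
    ← sub_eq_add_neg]

/-- the atoms -/
def atms (I : Inst) : List Fm :=
  (I.1.flatMap fun l => l.flatMap fun a => l.flatMap fun b => l.map fun c => colF a b c) ++
    I.2.map fun t => Fm.not (colF t.1 t.2.1 t.2.2)

/-- the formula -/
def frm (k : ℕ) (I : Inst) : Fm := if validB k I = true then conj (atms I) else ff

theorem etr_atms (I : Inst) : ETR (conj (atms I)) ↔
    ∃ P : ℕ → ℝ × ℝ, PositiveAtoms I P ∧ NegativeAtoms I P := by
  unfold ETR PositiveAtoms NegativeAtoms
  simp only [holds_conj, atms, List.forall_mem_append, List.forall_mem_flatMap,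
    List.forall_mem_map, forall_groups, List.mem_toFinset, Fm.Holds, holds_colF]
  constructor
  · rintro ⟨x, h1, h2⟩
    exact ⟨fun v => (x (2 * v), x (2 * v + 1)), fun l hl a ha b hb c hc => h1 l hl a ha b hb c hc,
      fun t ht => h2 t ht⟩
  · rintro ⟨P, h1, h2⟩
    have e : ∀ v : ℕ, ((fun n => if n % 2 = 0 then (P (n / 2)).1 else (P (n / 2)).2) (2 * v),
        (fun n => if n % 2 = 0 then (P (n / 2)).1 else (P (n / 2)).2) (2 * v + 1)) = P v := by
      intro v
      simp only
      rw [if_pos (by omega), if_neg (by omega), show 2 * v / 2 = v by omega,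
        show (2 * v + 1) / 2 = v by omega]
    refine ⟨fun n => if n % 2 = 0 then (P (n / 2)).1 else (P (n / 2)).2, ?_, ?_⟩
    · intro l hl a ha b hb c hc
      rw [e, e, e]
      exact h1 l hl a ha b hb c hc
    · intro t ht
      rw [e, e, e]
      exact h2 t ht

theorem frm_correct (k : ℕ) (I : Inst) : COLk k I ↔ ETR (frm k I) := by
  unfold COLk frm
  rw [← and_assoc, ← validB_iff]
  by_cases h : validB k I = true
  · rw [if_pos h, etr_atms]
    exact ⟨fun h => h.2, fun h' => ⟨h, h'⟩⟩
  · rw [if_neg h]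
    exact ⟨fun h' => absurd h'.1 h, fun h' => absurd h' not_etr_ff⟩

section

variable {α : Type} [TEnc α]

theorem poly_subT {s t : α → Tm} (hs : Poly s) (ht : Poly t) :
    Poly (fun a => subT (s a) (t a)) := poly_tadd hs (poly_tneg ht)

theorem poly_detT {a b c : α → ℕ} (ha : Poly a) (hb : Poly b) (hc : Poly c) :
    Poly (fun x => detT (a x) (b x) (c x)) := by
  have e : ∀ {n : α → ℕ}, Poly n → Poly (fun x => Tm.var (2 * n x)) := fun hn =>
    poly_tvar (Poly.mul (NPC.Poly.const 2) hn)
  have o : ∀ {n : α → ℕ}, Poly n → Poly (fun x => Tm.var (2 * n x + 1)) := fun hn =>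
    poly_tvar (Poly.add (Poly.mul (NPC.Poly.const 2) hn) (NPC.Poly.const 1))
  exact poly_subT (poly_tmul (poly_subT (e hb) (e ha)) (poly_subT (o hc) (o ha)))
    (poly_tmul (poly_subT (o hb) (o ha)) (poly_subT (e hc) (e ha)))

theorem poly_colF {a b c : α → ℕ} (ha : Poly a) (hb : Poly b) (hc : Poly c) :
    Poly (fun x => colF (a x) (b x) (c x)) := poly_eq (poly_detT ha hb hc) (NPC.Poly.const _)

theorem poly_subB {l m : α → List ℕ} (hl : Poly l) (hm : Poly m) :
    Poly (fun x => subB (l x) (m x)) :=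
  Poly.all (p := fun x a => decide (a ∈ m x)) hl
    (Poly.decide_mem (Poly.snd Poly.id) (hm.comp (Poly.fst Poly.id)))

theorem poly_interB {l m : α → List ℕ} (hl : Poly l) (hm : Poly m) :
    Poly (fun x => interB (l x) (m x)) := by
  refine Poly.all (p := fun x a => (l x).all fun b =>
    !(decide (a ∈ m x) && decide (b ∈ m x)) || decide (a = b)) hl ?_
  refine Poly.all (p := fun (y : α × ℕ) b =>
    !(decide (y.2 ∈ m y.1) && decide (b ∈ m y.1)) || decide (y.2 = b))
    (hl.comp (Poly.fst Poly.id)) ?_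
  have h1 : Poly (fun z : (α × ℕ) × ℕ => m z.1.1) := hm.comp (Poly.fst (Poly.fst Poly.id))
  have h2 : Poly (fun z : (α × ℕ) × ℕ => z.1.2) := Poly.snd (Poly.fst Poly.id)
  have h3 : Poly (fun z : (α × ℕ) × ℕ => z.2) := Poly.snd Poly.id
  exact Poly.or (Poly.not (Poly.and (Poly.decide_mem h2 h1) (Poly.decide_mem h3 h1)))
    (Poly.decide_eq h2 h3)

end

theorem poly_validB (k : ℕ) : Poly (validB k) := by
  have hI : Poly (fun I : Inst => I.1) := Poly.fst Poly.id
  refine Poly.and ?_ ?_
  · refine Poly.all (p := fun (I : Inst) l => I.1.all fun m =>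
      (subB l m && subB m l) || interB l m) hI ?_
    refine Poly.all (p := fun (y : Inst × List ℕ) m =>
      (subB y.2 m && subB m y.2) || interB y.2 m) (hI.comp (Poly.fst Poly.id)) ?_
    have h1 : Poly (fun z : (Inst × List ℕ) × List ℕ => z.1.2) := Poly.snd (Poly.fst Poly.id)
    have h2 : Poly (fun z : (Inst × List ℕ) × List ℕ => z.2) := Poly.snd Poly.id
    exact Poly.or (Poly.and (poly_subB h1 h2) (poly_subB h2 h1)) (poly_interB h1 h2)
  · refine Poly.all (p := fun (I : Inst) (l : List ℕ) => decide (l.dedup.length ≤ k)) hI ?_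
    exact Poly.decide_le (Poly.length (H612.poly_dedup (Poly.snd Poly.id))) (NPC.Poly.const k)

theorem poly_atms : Poly atms := by
  have hI : Poly (fun I : Inst => I.1) := Poly.fst Poly.id
  refine Poly.append ?_ ?_
  · refine Poly.flatMap (F := fun (I : Inst) l =>
      l.flatMap fun a => l.flatMap fun b => l.map fun c => colF a b c) hI ?_
    refine Poly.flatMap (F := fun (y : Inst × List ℕ) a =>
      y.2.flatMap fun b => y.2.map fun c => colF a b c) (Poly.snd Poly.id) ?_
    refine Poly.flatMap (F := fun (y : (Inst × List ℕ) × ℕ) b =>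
      y.1.2.map fun c => colF y.2 b c) (Poly.snd (Poly.fst Poly.id)) ?_
    refine NPC.Poly.map (F := fun (y : ((Inst × List ℕ) × ℕ) × ℕ) c => colF y.1.2 y.2 c)
      (Poly.snd (Poly.fst (Poly.fst Poly.id))) ?_
    exact poly_colF (Poly.snd (Poly.fst (Poly.fst Poly.id))) (Poly.snd (Poly.fst Poly.id))
      (Poly.snd Poly.id)
  · refine NPC.Poly.map (F := fun (_ : Inst) (t : ℕ × ℕ × ℕ) => Fm.not (colF t.1 t.2.1 t.2.2))
      (Poly.snd Poly.id) ?_
    have h : Poly (fun p : Inst × ℕ × ℕ × ℕ => p.2) := Poly.snd Poly.id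
    exact poly_not (poly_colF (Poly.fst h) (Poly.fst (Poly.snd h)) (Poly.snd (Poly.snd h)))

theorem poly_frm (k : ℕ) : Poly (frm k) :=
  Poly.ite (p := fun I => validB k I = true) (Poly.decide_bool (poly_validB k))
    (poly_conj poly_atms) (NPC.Poly.const _)

theorem mem (k : ℕ) : InER (lang (COLk k)) := ER.InER.of_poly (poly_frm k) (frm_correct k)

end Pool.Agent.Q230.CO
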